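import Pool.Agent.X144.OS.Main

/-!
# MP_d12cfa_co, Q1 in its equivalent form: the Pfaffian identity

The number of off-diagonally symmetric alternating sign matrices of size `2n + 1` is given by the
conjectured product if and only if two Pfaffians coincide (see the problem file).  We prove that they
coincide for all `n`.  The reason is an involution: for `L_{ai} = (-1)^i binom(a, i)` and the matrix
`C = (c_{ab})` of the coefficients of `(y - x) / ((1 - xy)(1 - x - y))` one has `L C Lᵀ = -C`, and `L`
maps `((-1)^a)` to `(2^a)`.  (The substitution `x ↦ -x / (1 - x)` in both variables exchanges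
`1 - xy` and `1 - x - y`, up to factors.)
-/

namespace Pool.Agent.Results.MP_d12cfa_co.PfaffianIdentity

open Pool.Agent.X144.OS

/-- **Main result.**
(1) The array `c` consists of the coefficients of `(y - x) / ((1 - xy)(1 - x - y))`.
(2) The Pfaffian of the array of size `2n + 2` with entries `c_{ab}` and last column `w` does not
change if `w` is replaced by its binomial transform `a ↦ ∑_i (-1)^i binom(a, i) w_i`.
(3) The Pfaffians with last columns `(-1)^a` and `((-1)^a + 2^a) / 2` coincide, for all `n`. -/
theorem result :
    (1 - vx * vy) * (1 - vx - vy) * cser = vy - vx ∧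
    (∀ (n : ℕ) (w : ℕ → ℚ), pf (arr n (bt w)) = pf (arr n w)) ∧
    ∀ n : ℕ, pf (arr n (fun a => (-1) ^ a)) = pf (arr n (fun a => ((-1) ^ a + 2 ^ a) / 2)) :=
  ⟨cser_eq, pf_bt, pf_identity⟩

end Pool.Agent.Results.MP_d12cfa_co.PfaffianIdentity
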